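import Pool.Agent.Helper88.UV.Tmc
import Pool.Agent.Helper92.UV.Bnd

/-!
# PROJECT UR2 (MP_c578c8_lc), packet TMC
-/

set_option autoImplicit false

namespace Pool.Agent.Helper88.UV

theorem tmc : Pool.Agent.Helper53.UV.GoalTMC := gTMC Pool.Agent.Helper92.UV.bnd

end Pool.Agent.Helper88.UV
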