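import Pool.Agent.Helper88.UV.TmcDefs
import Pool.Agent.Helper92.RE.SimM
import Pool.Agent.Helper92.RE.TmB

/-!
# PROJECT UR2 (MP_c578c8_lc), packet TMC: Turing machines with one tape as cell machines
-/

set_option autoImplicit false

namespace Pool.Agent.Helper88.UV

open Pool.Agent.Helper65.LinSpace Pool.Agent.Helper78.Mpc
open Pool.Agent.Helper81.RP (lett ls_pair)
open Pool.Agent.Helper92.RE (LD adr ls_adr ltv ls_ltv ltv_eq run_head adr_le)
open Pool.Agent.Helper31.TMS (idx idx_inj pos ls_pos sym AcceptsAt exists_bound run_halt)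
open Pool.Agent.Helper20.TMS (pos_eq run_succ_none run_succ_some inp_le)
open Pool.Agent.Helper53.UV

/-! ### Positions on the tape as numbers -/

/-- The number of a cell. -/
def fd (z : ℤ) : ℕ := if 0 ≤ z then 2 * z.toNat else 2 * (-z).toNat - 1

/-- The cell with the number `c`. -/
def uf (c : ℕ) : ℤ := if c % 2 = 0 then ((c / 2 : ℕ) : ℤ) else -((c / 2 : ℕ) : ℤ) - 1

theorem uf_fd (z : ℤ) : uf (fd z) = z := by
  unfold uf fd
  split_ifs <;> omega

theorem fd_uf (c : ℕ) : fd (uf c) = c := by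
  unfold uf fd
  split_ifs <;> omega

/-- The move of the head. -/
def mvz (d : Dir) (c : ℕ) : ℕ :=
  match d with
  | .left => ifz c 1 (ifz (c % 2) (c - 2) (c + 2))
  | .stay => c
  | .right => ifz (c % 2) (c + 2) (ifz (c - 1) 0 (c - 2))

theorem ls_mvz (d : Dir) : LS (mvz d) := by
  cases d with
  | left =>
    show LS fun c : ℕ => ifz c 1 (ifz (c % 2) (c - 2) (c + 2))
    fun_prop
  | stay => exact LS.id
  | right =>
    show LS fun c : ℕ => ifz (c % 2) (c + 2) (ifz (c - 1) 0 (c - 2))
    fun_prop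

theorem mvz_fd (d : Dir) (z : ℤ) : mvz d (fd z) = fd (z + d.toInt) := by
  cases d
  · show ifz (fd z) 1 (ifz (fd z % 2) (fd z - 2) (fd z + 2)) = fd (z + -1)
    unfold ifz fd
    split_ifs <;> omega
  · show fd z = fd (z + 0)
    rw [add_zero]
  · show ifz (fd z % 2) (fd z + 2) (ifz (fd z - 1) 0 (fd z - 2)) = fd (z + 1)
    unfold ifz fd
    split_ifs <;> omega

theorem mvz_near (d : Dir) (c : ℕ) : mvz d c ≤ c + 2 ∧ c ≤ mvz d c + 2 := by
  cases d
  · show ifz c 1 (ifz (c % 2) (c - 2) (c + 2)) ≤ c + 2 ∧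
      c ≤ ifz c 1 (ifz (c % 2) (c - 2) (c + 2)) + 2
    unfold ifz
    split_ifs <;> omega
  · show c ≤ c + 2 ∧ c ≤ c + 2
    omega
  · show ifz (c % 2) (c + 2) (ifz (c - 1) 0 (c - 2)) ≤ c + 2 ∧
      c ≤ ifz (c % 2) (c + 2) (ifz (c - 1) 0 (c - 2)) + 2
    unfold ifz
    split_ifs <;> omega

theorem fd_le {z : ℤ} {t : ℕ} (h : |z| ≤ t) : fd z ≤ 2 * t := by
  have := abs_le.1 h
  unfold fd
  split_ifs <;> omega

/-! ### Symbols and tables -/

variable (M : TM 1)

open Classical in
/-- The number of a symbol; `0` for the blank. -/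
noncomputable def cd (s : M.Sym) : ℕ :=
  haveI := M.finSym
  if s = M.blank then 0 else (Finite.equivFin M.Sym s : ℕ) + 1

theorem cd_blank : cd M M.blank = 0 := if_pos rfl

theorem cd_inj {s s' : M.Sym} (h : cd M s = cd M s') : s = s' := by
  have := M.finSym
  unfold cd at h
  by_cases h1 : s = M.blank
  · by_cases h2 : s' = M.blank
    · rw [h1, h2]
    · rw [if_pos h1, if_neg h2] at h
      exact absurd h.symm (Nat.succ_ne_zero _)
  · by_cases h2 : s' = M.blank
    · rw [if_neg h1, if_pos h2] at h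
      exact absurd h (Nat.succ_ne_zero _)
    · rw [if_neg h1, if_neg h2] at h
      exact (Finite.equivFin M.Sym).injective (Fin.ext (Nat.succ_injective h))

theorem lett_inj {a b : Option Bool} (h : lett a = lett b) : a = b := by
  rcases a with _ | _ | _ <;> rcases b with _ | _ | _ <;> simp_all [lett]

/-- What the machine sees. -/
abbrev Tp : Type := M.State × Option Bool × M.Sym

noncomputable instance : Fintype (Tp M) :=
  haveI := M.finState
  haveI := M.finSym
  Fintype.ofFinite _

/-- `1` if `t` is what the machine sees. -/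
noncomputable def hit (t : Tp M) (j a c : ℕ) : ℕ :=
  eq01 j (idx M t.1 + 2) * (eq01 a (lett t.2.1) * eq01 c (cd M t.2.2))

theorem hit_self (t : Tp M) : hit M t (idx M t.1 + 2) (lett t.2.1) (cd M t.2.2) = 1 := by
  unfold hit eq01
  simp

theorem hit_ne {t t' : Tp M} (h : t' ≠ t) :
    hit M t' (idx M t.1 + 2) (lett t.2.1) (cd M t.2.2) = 0 := by
  unfold hit eq01
  by_cases h1 : idx M t.1 + 2 = idx M t'.1 + 2
  · by_cases h2 : lett t.2.1 = lett t'.2.1
    · by_cases h3 : cd M t.2.2 = cd M t'.2.2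
      · exfalso
        refine h (Prod.ext (idx_inj M (by omega)) (Prod.ext (lett_inj h2.symm) (cd_inj M h3.symm)))
      · rw [if_neg h3]
        simp
    · rw [if_neg h2]
      simp
  · rw [if_neg h1]
    simp

/-- A table. -/
noncomputable def tb (G : Tp M → ℕ) (j a c : ℕ) : ℕ := ∑ t : Tp M, hit M t j a c * G t

theorem tb_eq (G : Tp M → ℕ) (t : Tp M) :
    tb M G (idx M t.1 + 2) (lett t.2.1) (cd M t.2.2) = G t := by
  unfold tb
  rw [Finset.sum_eq_single t]
  · rw [hit_self, one_mul]
  · intro t' _ h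
    rw [hit_ne M h, zero_mul]
  · intro h
    exact absurd (Finset.mem_univ _) h

theorem ls_fsum {ι : Type} (s : Finset ι) {α : Type} [Ctx α] (f : ι → α → ℕ)
    (h : ∀ i, LS (f i)) : LS (fun a => ∑ i ∈ s, f i a) := by
  classical
  induction s using Finset.induction_on with
  | empty => exact LS.const (α := α) 0
  | insert i s hi ih =>
    simp only [Finset.sum_insert hi]
    exact LS.add (h i) ih

theorem ls_tb {α : Type} [Ctx α] {G : Tp M → α → ℕ} (hG : ∀ t, LS (G t)) {j a c : α → ℕ}
    (hj : LS j) (ha : LS a) (hc : LS c) :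
    LS (fun x => tb M (fun t => G t x) (j x) (a x) (c x)) := by
  unfold tb
  refine ls_fsum _ (fun t x => hit M t (j x) (a x) (c x) * G t x) fun t => ?_
  refine LS.mul ?_ (hG t)
  unfold hit
  exact LS.mul (LS.eq01 hj (LS.const _)) (LS.mul (LS.eq01 ha (LS.const _))
    (LS.eq01 hc (LS.const _)))

/-! ### The machine -/

/-- The phase. -/
def fj (x : ℕ) : ℕ := (Nat.unpair x).1

/-- The position of the input head. -/
def fp (x : ℕ) : ℕ := (Nat.unpair (Nat.unpair x).2).1

/-- The cell. -/
def fz (x : ℕ) : ℕ := (Nat.unpair (Nat.unpair (Nat.unpair x).2).2).1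

/-- The length. -/
def fn (x : ℕ) : ℕ := (Nat.unpair (Nat.unpair (Nat.unpair x).2).2).2

/-- The state. -/
def st (j p z n : ℕ) : ℕ := Nat.pair j (Nat.pair p (Nat.pair z n))

theorem fj_st (j p z n : ℕ) : fj (st j p z n) = j := by
  unfold fj st
  rw [Nat.unpair_pair]

theorem fp_st (j p z n : ℕ) : fp (st j p z n) = p := by
  unfold fp st
  rw [Nat.unpair_pair, Nat.unpair_pair]

theorem fz_st (j p z n : ℕ) : fz (st j p z n) = z := by
  unfold fz st
  rw [Nat.unpair_pair, Nat.unpair_pair, Nat.unpair_pair]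

theorem fn_st (j p z n : ℕ) : fn (st j p z n) = n := by
  unfold fn st
  rw [Nat.unpair_pair, Nat.unpair_pair, Nat.unpair_pair]

open Classical in
/-- The new state, from the table. -/
noncomputable def nxT (t : Tp M) (x : ℕ) : ℕ :=
  match M.step t.1 t.2.1 (fun _ => t.2.2) with
  | none => st (if t.1 ∈ M.accept then 1 else 0) (fp x) (fz x) (fn x)
  | some r => st (idx M r.1 + 2) (pos t.2.1 r.2.1 (fp x)) (mvz (r.2.2 0).2 (fz x)) (fn x)

/-- The new state. -/
noncomputable def nxF (x a c : ℕ) : ℕ :=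
  ifz (fj x / 2) x (tb M (fun t => nxT M t x) (fj x) a c)

/-- The new content. -/
noncomputable def wrF (x a c : ℕ) : ℕ :=
  ifz (fj x / 2) c (tb M (fun t => cd M (sym M t.1 t.2.1 (fun _ => t.2.2) 0)) (fj x) a c)

section

variable {α : Type} [Ctx α]

theorem ls_st {j p z n : α → ℕ} (hj : LS j) (hp : LS p) (hz : LS z) (hn : LS n) :
    LS (fun a => st (j a) (p a) (z a) (n a)) := by
  unfold st
  exact ls_pair hj (ls_pair hp (ls_pair hz hn))

theorem ls_fj {x : α → ℕ} (hx : LS x) : LS (fun a => fj (x a)) := by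
  unfold fj
  fun_prop

theorem ls_fp {x : α → ℕ} (hx : LS x) : LS (fun a => fp (x a)) := by
  unfold fp
  fun_prop

theorem ls_fz {x : α → ℕ} (hx : LS x) : LS (fun a => fz (x a)) := by
  unfold fz
  fun_prop

theorem ls_fn {x : α → ℕ} (hx : LS x) : LS (fun a => fn (x a)) := by
  unfold fn
  fun_prop

theorem ls_nxT (t : Tp M) : LS (fun x : ℕ => nxT M t x) := by
  classical
  have h1 : LS (fun x : ℕ => fp x) := ls_fp LS.id
  have h2 : LS (fun x : ℕ => fz x) := ls_fz LS.id
  have h3 : LS (fun x : ℕ => fn x) := ls_fn LS.id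
  unfold nxT
  cases hs : M.step t.1 t.2.1 (fun _ => t.2.2) with
  | none => exact ls_st (LS.const _) h1 h2 h3
  | some r =>
    exact ls_st (LS.const _) (LS.comp (g := pos t.2.1 r.2.1) (ls_pos _ _) h1)
      (LS.comp (g := mvz (r.2.2 0).2) (ls_mvz _) h2) h3

end

variable (D : LD)

theorem ls_nxF : LS (fun z : ℕ × ℕ × ℕ => nxF M z.1 z.2.1 z.2.2) := by
  have h0 : LS (fun z : ℕ × ℕ × ℕ => z.1) := LS.fst
  have h3 : LS (fun z : ℕ × ℕ × ℕ => z.2.1) := by fun_prop
  have h4 : LS (fun z : ℕ × ℕ × ℕ => z.2.2) := by fun_prop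
  have h1 : LS (fun z : ℕ × ℕ × ℕ => fj z.1) := ls_fj h0
  have h5 : LS (fun z : ℕ × ℕ × ℕ => fj z.1 / 2) := LS.div h1 (LS.const 2)
  have h6 : ∀ t : Tp M, LS (fun z : ℕ × ℕ × ℕ => nxT M t z.1) := fun t =>
    LS.comp (g := nxT M t) (ls_nxT M t) h0
  have h2 : LS (fun z : ℕ × ℕ × ℕ => tb M (fun t => nxT M t z.1) (fj z.1) z.2.1 z.2.2) :=
    ls_tb M h6 h1 h3 h4
  exact LS.ifz h5 h0 h2

theorem ls_wrF : LS (fun z : ℕ × ℕ × ℕ => wrF M z.1 z.2.1 z.2.2) := by
  have h0 : LS (fun z : ℕ × ℕ × ℕ => z.1) := LS.fst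
  have h3 : LS (fun z : ℕ × ℕ × ℕ => z.2.1) := by fun_prop
  have h4 : LS (fun z : ℕ × ℕ × ℕ => z.2.2) := by fun_prop
  have h1 : LS (fun z : ℕ × ℕ × ℕ => fj z.1) := ls_fj h0
  have h5 : LS (fun z : ℕ × ℕ × ℕ => fj z.1 / 2) := LS.div h1 (LS.const 2)
  have h6 : ∀ t : Tp M, LS (fun _ : ℕ × ℕ × ℕ =>
      cd M (sym M t.1 t.2.1 (fun _ => t.2.2) 0)) := fun t => LS.const _
  have h2 : LS (fun z : ℕ × ℕ × ℕ =>
      tb M (fun t => cd M (sym M t.1 t.2.1 (fun _ => t.2.2) 0)) (fj z.1) z.2.1 z.2.2) :=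
    ls_tb M h6 h1 h3 h4
  exact LS.ifz h5 h4 h2

/-- The virtual letter. -/
def lfF (n u a b : ℕ) : ℕ := min 2 (ifz u 0 (ltv D n (u - 1) (a + 3 * b)))

theorem ls_lfF : LS (fun z : ℕ × ℕ × ℕ × ℕ => lfF D z.1 z.2.1 z.2.2.1 z.2.2.2) := by
  have h1 : LS (fun z : ℕ × ℕ × ℕ × ℕ => ltv D z.1 (z.2.1 - 1) (z.2.2.1 + 3 * z.2.2.2)) :=
    ls_ltv D (by fun_prop) (by fun_prop) (by fun_prop)
  have h2 : LS (fun z : ℕ × ℕ × ℕ × ℕ =>
      ifz z.2.1 0 (ltv D z.1 (z.2.1 - 1) (z.2.2.1 + 3 * z.2.2.2))) :=
    LS.ifz (by fun_prop) (LS.const 0) h1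
  exact LS.min (LS.const 2) h2

/-- **The cell machine.** -/
noncomputable def mach : CM where
  ad n u := adr D n (u - 1)
  lf := lfF D
  k0 n := st (idx M M.start + 2) 0 0 n
  cel := fz
  adr := fp
  nx := nxF M
  wr := wrF M
  acc x := eq01 (fj x) 1
  hlf n u a b := lt_of_le_of_lt (min_le_left _ _) (by norm_num)
  ls_ad := ls_adr D (n := fun z : ℕ × ℕ => z.1) (u := fun z : ℕ × ℕ => z.2 - 1) (by fun_prop)
    (by fun_prop)
  ls_lf := ls_lfF D
  ls_k0 := ls_st (LS.const _) (LS.const 0) (LS.const 0) LS.id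
  ls_cel := ls_fz LS.id
  ls_adr := ls_fp LS.id
  ls_nx := ls_nxF M
  ls_wr := ls_wrF M
  ls_acc := LS.eq01 (ls_fj LS.id) (LS.const 1)

theorem mach_cel (x : ℕ) : (mach M D).cel x = fz x := rfl

theorem mach_adr (x : ℕ) : (mach M D).adr x = fp x := rfl

theorem mach_acc (x : ℕ) : (mach M D).acc x = eq01 (fj x) 1 := rfl

theorem mach_nx (x a c : ℕ) : (mach M D).nx x a c = nxF M x a c := rfl

theorem mach_wr (x a c : ℕ) : (mach M D).wr x a c = wrF M x a c := rfl

theorem step_fst (w y : List Bool) (c : ℕ × (ℕ → ℕ)) : ((mach M D).step w y c).1 =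
    (mach M D).nx c.1 ((mach M D).vl w y ((mach M D).adr c.1)) (c.2 ((mach M D).cel c.1)) := rfl

theorem step_snd (w y : List Bool) (c : ℕ × (ℕ → ℕ)) : ((mach M D).step w y c).2 =
    Function.update c.2 ((mach M D).cel c.1)
      ((mach M D).wr c.1 ((mach M D).vl w y ((mach M D).adr c.1)) (c.2 ((mach M D).cel c.1))) :=
  rfl

variable {D}

theorem vl_eq {F : List Bool → List Bool} (hF : D.Is F) (w y : List Bool) (p : ℕ) :
    (mach M D).vl w y p = lett (inputSym (F w ++ y) p) := by
  show min 2 (ifz p 0 (ltv D w.length (p - 1) (lett w[adr D w.length (p - 1)]? +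
    3 * lett y[adr D w.length (p - 1)]?))) = _
  rw [ltv_eq hF]
  unfold ifz inputSym
  by_cases h : p = 0
  · rw [if_pos h, if_pos h]
    rfl
  · rw [if_neg h, if_neg h]
    refine min_eq_right ?_
    rcases (F w ++ y)[p - 1]? with _ | _ | _ <;> simp [lett]

/-- The invariant. -/
theorem inv {F : List Bool → List Bool} (hF : D.Is F) (w y : List Bool) (t : ℕ) :
    ∃ J, ((mach M D).conf w y t).1 = st J (M.run (F w ++ y) t).inp
        (fd ((M.run (F w ++ y) t).head 0)) w.length ∧
      (∀ z, ((mach M D).conf w y t).2 z = cd M ((M.run (F w ++ y) t).tape 0 (uf z))) ∧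
      (J = idx M (M.run (F w ++ y) t).state + 2 ∨
        (M.next (F w ++ y) (M.run (F w ++ y) t) = none ∧ J ≤ 1 ∧
          (J = 1 ↔ (M.run (F w ++ y) t).state ∈ M.accept))) := by
  classical
  set x := F w ++ y with hx
  induction t with
  | zero => exact ⟨_, rfl, fun z => (cd_blank M).symm, Or.inl rfl⟩
  | succ t ih =>
    obtain ⟨J, h1, h2, h3⟩ := ih
    set R := M.run x t with hR
    set c := (mach M D).conf w y t with hc
    have hstep : (mach M D).conf w y (t + 1) = (mach M D).step w y c := rfl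
    have hcel : (mach M D).cel c.1 = fd (R.head 0) := by rw [mach_cel, h1, fz_st]
    have hadr : (mach M D).adr c.1 = R.inp := by rw [mach_adr, h1, fp_st]
    have hvl : (mach M D).vl w y ((mach M D).adr c.1) = lett (inputSym x R.inp) := by
      rw [hadr]
      exact vl_eq M hF w y _
    have hcon : c.2 ((mach M D).cel c.1) = cd M (R.tape 0 (R.head 0)) := by
      rw [hcel, h2, uf_fd]
    have hs1 : ((mach M D).step w y c).1 =
        nxF M c.1 (lett (inputSym x R.inp)) (cd M (R.tape 0 (R.head 0))) := by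
      rw [step_fst, hvl, hcon, mach_nx]
    have hs2 : ((mach M D).step w y c).2 = Function.update c.2 (fd (R.head 0))
        (wrF M c.1 (lett (inputSym x R.inp)) (cd M (R.tape 0 (R.head 0)))) := by
      rw [step_snd, hvl, hcon, hcel, mach_wr]
    have hfj : fj c.1 = J := by rw [h1, fj_st]
    have hfp : fp c.1 = R.inp := by rw [h1, fp_st]
    have hfz : fz c.1 = fd (R.head 0) := by rw [h1, fz_st]
    have hfn : fn c.1 = w.length := by rw [h1, fn_st]
    rw [hstep, hs1, hs2]
    rcases h3 with h3 | ⟨h3, h4, h5⟩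
    · -- the machine runs
      have hJ : ¬ (fj c.1 / 2 = 0) := by
        rw [hfj, h3]
        omega
      have hp : R.inp ≤ x.length + 1 := inp_le M x t
      have hfun : (fun i => R.tape i (R.head i)) = fun _ : Fin 1 => R.tape 0 (R.head 0) := by
        funext i
        rw [Subsingleton.elim i 0]
      have hn : nxF M c.1 (lett (inputSym x R.inp)) (cd M (R.tape 0 (R.head 0))) =
          nxT M (R.state, inputSym x R.inp, R.tape 0 (R.head 0)) c.1 := by
        unfold nxF ifz
        rw [if_neg hJ, hfj, h3]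
        exact tb_eq M (fun t => nxT M t c.1) (R.state, inputSym x R.inp, R.tape 0 (R.head 0))
      have hw : wrF M c.1 (lett (inputSym x R.inp)) (cd M (R.tape 0 (R.head 0))) =
          cd M (sym M R.state (inputSym x R.inp) (fun _ => R.tape 0 (R.head 0)) 0) := by
        unfold wrF ifz
        rw [if_neg hJ, hfj, h3]
        exact tb_eq M (fun t => cd M (sym M t.1 t.2.1 (fun _ => t.2.2) 0))
          (R.state, inputSym x R.inp, R.tape 0 (R.head 0))
      rw [hn, hw]
      cases hst : M.step R.state (inputSym x R.inp) (fun _ => R.tape 0 (R.head 0)) with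
      | none =>
        have hst' := hst
        rw [← hfun] at hst'
        obtain ⟨hrun, hnone⟩ := run_succ_none (M := M) (w := x) (t := t) hst'
        have e1 : nxT M (R.state, inputSym x R.inp, R.tape 0 (R.head 0)) c.1 =
            st (if R.state ∈ M.accept then 1 else 0) R.inp (fd (R.head 0)) w.length := by
          unfold nxT
          simp only [hst, hfp, hfz, hfn]
        have e2 : sym M R.state (inputSym x R.inp) (fun _ => R.tape 0 (R.head 0)) 0 =
            R.tape 0 (R.head 0) := by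
          unfold sym
          rw [hst]
        rw [hrun, e1, e2]
        refine ⟨_, rfl, fun z => ?_, Or.inr ⟨hnone, ?_, ?_⟩⟩
        · by_cases hz : z = fd (R.head 0)
          · rw [hz, Function.update_self, uf_fd]
          · rw [Function.update_of_ne hz, h2]
        · split_ifs <;> omega
        · show _ ↔ R.state ∈ M.accept
          split_ifs with h
          · exact ⟨fun _ => h, fun _ => rfl⟩
          · exact ⟨fun h' => absurd h' (by norm_num), fun h' => absurd h' h⟩
      | some r =>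
        have hst' := hst
        rw [← hfun] at hst'
        obtain ⟨hrun, -⟩ := run_succ_some (M := M) (w := x) (t := t) hst'
        have e1 : nxT M (R.state, inputSym x R.inp, R.tape 0 (R.head 0)) c.1 =
            st (idx M r.1 + 2) (inputMove x r.2.1 R.inp)
              (fd (R.head 0 + (r.2.2 0).2.toInt)) w.length := by
          unfold nxT
          simp only [hst, hfp, hfz, hfn, pos_eq x R.inp hp, mvz_fd]
        have e2 : sym M R.state (inputSym x R.inp) (fun _ => R.tape 0 (R.head 0)) 0 =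
            (r.2.2 0).1 := by
          unfold sym
          rw [hst]
        rw [hrun, e1, e2]
        refine ⟨_, rfl, fun z => ?_, Or.inl rfl⟩
        show _ = cd M (Function.update (R.tape 0) (R.head 0) (r.2.2 0).1 (uf z))
        by_cases hz : z = fd (R.head 0)
        · rw [hz, Function.update_self, uf_fd, Function.update_self]
        · have hz2 : uf z ≠ R.head 0 := by
            intro h
            exact hz (by rw [← h, fd_uf])
          rw [Function.update_of_ne hz, Function.update_of_ne hz2, h2]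
    · -- the machine has halted
      have hJ : fj c.1 / 2 = 0 := by
        rw [hfj]
        omega
      have hn : nxF M c.1 (lett (inputSym x R.inp)) (cd M (R.tape 0 (R.head 0))) = c.1 := by
        unfold nxF ifz
        rw [if_pos hJ]
      have hw : wrF M c.1 (lett (inputSym x R.inp)) (cd M (R.tape 0 (R.head 0))) =
          cd M (R.tape 0 (R.head 0)) := by
        unfold wrF ifz
        rw [if_pos hJ]
      rw [hn, hw, run_halt M h3]
      refine ⟨J, h1, fun z => ?_, Or.inr ⟨h3, h4, h5⟩⟩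
      by_cases hz : z = fd (R.head 0)
      · rw [hz, Function.update_self, uf_fd]
      · rw [Function.update_of_ne hz, h2]

theorem sound {F : List Bool → List Bool} (hF : D.Is F) {w y : List Bool} {t : ℕ}
    (h : (mach M D).AcceptsAt w y t) : AcceptsAt M (F w ++ y) t := by
  obtain ⟨J, h1, -, h3⟩ := inv M hF w y t
  have h4 : (mach M D).acc ((mach M D).conf w y t).1 ≠ 0 := h
  rw [mach_acc, h1, fj_st] at h4
  have h5 : J = 1 := by
    unfold eq01 at h4
    by_contra hJ
    rw [if_neg hJ] at h4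
    exact h4 rfl
  rcases h3 with h3 | ⟨h3, -, h6⟩
  · omega
  · exact ⟨h3, h6.1 h5⟩

/-- If the machine has halted at the time `t`, then `J ≤ 1` at the time `t + 1`. -/
theorem inv_halt {F : List Bool → List Bool} (hF : D.Is F) (w y : List Bool) (t : ℕ)
    (h : M.next (F w ++ y) (M.run (F w ++ y) t) = none) :
    fj ((mach M D).conf w y (t + 1)).1 ≤ 1 := by
  classical
  obtain ⟨J, h1, h2, h3⟩ := inv M hF w y t
  have hc : ((mach M D).conf w y (t + 1)).1 =
      nxF M ((mach M D).conf w y t).1 (lett (inputSym (F w ++ y) (M.run (F w ++ y) t).inp))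
        (cd M ((M.run (F w ++ y) t).tape 0 ((M.run (F w ++ y) t).head 0))) := by
    show ((mach M D).step w y ((mach M D).conf w y t)).1 = _
    rw [step_fst, mach_nx, mach_adr, mach_cel, h1, fp_st, fz_st, h2, uf_fd, vl_eq M hF]
  rw [hc]
  rcases h3 with h3 | ⟨-, h4, -⟩
  · have hJ : ¬ (fj ((mach M D).conf w y t).1 / 2 = 0) := by
      rw [h1, fj_st, h3]
      omega
    have hst : M.step (M.run (F w ++ y) t).state
        (inputSym (F w ++ y) (M.run (F w ++ y) t).inp)
        (fun _ => (M.run (F w ++ y) t).tape 0 ((M.run (F w ++ y) t).head 0)) = none := by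
      unfold TM.next at h
      have h5 := Option.map_eq_none_iff.1 h
      rw [← h5]
      congr 1
      funext i
      rw [Subsingleton.elim i 0]
    unfold nxF ifz
    rw [if_neg hJ]
    have e : fj ((mach M D).conf w y t).1 = idx M (M.run (F w ++ y) t).state + 2 := by
      rw [h1, fj_st, h3]
    rw [e, tb_eq M (fun t' => nxT M t' ((mach M D).conf w y t).1)
      ((M.run (F w ++ y) t).state, inputSym (F w ++ y) (M.run (F w ++ y) t).inp,
        (M.run (F w ++ y) t).tape 0 ((M.run (F w ++ y) t).head 0))]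
    unfold nxT
    simp only [hst, fj_st]
    split_ifs <;> omega
  · have hJ : fj ((mach M D).conf w y t).1 / 2 = 0 := by
      rw [h1, fj_st]
      omega
    unfold nxF ifz
    rw [if_pos hJ, h1, fj_st]
    exact h4

theorem complete {F : List Bool → List Bool} (hF : D.Is F) {w y : List Bool} {t : ℕ}
    (h : AcceptsAt M (F w ++ y) t) : (mach M D).AcceptsAt w y (t + 1) := by
  obtain ⟨J, h1, -, h3⟩ := inv M hF w y (t + 1)
  have hrun : M.run (F w ++ y) (t + 1) = M.run (F w ++ y) t := run_halt M h.1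
  have h4 := inv_halt M hF w y t h.1
  rw [h1, fj_st] at h4
  show (mach M D).acc ((mach M D).conf w y (t + 1)).1 ≠ 0
  rw [mach_acc, h1, fj_st]
  rcases h3 with h3 | ⟨-, -, h6⟩
  · omega
  · have : J = 1 := h6.2 (by rw [hrun]; exact h.2)
    rw [this]
    simp [eq01]

/-! ### The interface -/

/-- The steps of the machine. -/
theorem near (x : List Bool) (t : ℕ) :
    (fd ((M.run x (t + 1)).head 0) ≤ fd ((M.run x t).head 0) + 2 ∧
      fd ((M.run x t).head 0) ≤ fd ((M.run x (t + 1)).head 0) + 2) ∧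
    ((M.run x (t + 1)).inp ≤ (M.run x t).inp + 1 ∧
      (M.run x t).inp ≤ (M.run x (t + 1)).inp + 1) := by
  cases hst : M.step (M.run x t).state (inputSym x (M.run x t).inp)
      (fun i => (M.run x t).tape i ((M.run x t).head i)) with
  | none =>
    rw [(run_succ_none (M := M) (w := x) (t := t) hst).1]
    omega
  | some r =>
    rw [(run_succ_some (M := M) (w := x) (t := t) hst).1]
    refine ⟨?_, ?_⟩
    · show fd ((M.run x t).head 0 + (r.2.2 0).2.toInt) ≤ fd ((M.run x t).head 0) + 2 ∧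
        fd ((M.run x t).head 0) ≤ fd ((M.run x t).head 0 + (r.2.2 0).2.toInt) + 2
      rw [← mvz_fd]
      exact mvz_near _ _
    · show inputMove x r.2.1 (M.run x t).inp ≤ (M.run x t).inp + 1 ∧
        (M.run x t).inp ≤ inputMove x r.2.1 (M.run x t).inp + 1
      have hp := inp_le M x t
      cases r.2.1 <;> simp only [inputMove] <;> omega

theorem inp_le_time (x : List Bool) (t : ℕ) : (M.run x t).inp ≤ t := by
  induction t with
  | zero => exact le_rfl
  | succ t ih => exact (near M x t).2.1.trans (by omega)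

theorem bd {F : List Bool → List Bool} (hF : D.Is F) : ∃ K₀, Bd (mach M D) K₀ := by
  have := M.finState
  have := M.finSym
  obtain ⟨c₁, hc₁⟩ := exists_bound fun σ : M.State => idx M σ + 2
  obtain ⟨c₂, hc₂⟩ := exists_bound fun s : M.Sym => cd M s
  refine ⟨c₁ + c₂ + 1, fun w y t => ?_, fun w y t => ?_, fun w y t => ?_, fun w y t z => ?_,
    fun n u => ?_⟩
  · obtain ⟨J, h1, -, h3⟩ := inv M hF w y t
    refine ⟨J, _, _, h1, ?_, inp_le_time M _ t, fd_le (run_head M _ t 0), ?_, ?_⟩
    · rcases h3 with h3 | ⟨-, h3, -⟩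
      · have := hc₁ (M.run (F w ++ y) t).state
        omega
      · omega
    · rw [mach_cel, h1, fz_st]
    · rw [mach_adr, h1, fp_st]
  · obtain ⟨J, h1, -, -⟩ := inv M hF w y t
    obtain ⟨J', g1, -, -⟩ := inv M hF w y (t + 1)
    rw [mach_cel, mach_cel, h1, g1, fz_st, fz_st]
    exact (near M (F w ++ y) t).1
  · obtain ⟨J, h1, -, -⟩ := inv M hF w y t
    obtain ⟨J', g1, -, -⟩ := inv M hF w y (t + 1)
    rw [mach_adr, mach_adr, h1, g1, fp_st, fp_st]
    have := (near M (F w ++ y) t).2
    omega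
  · obtain ⟨J, -, h2, -⟩ := inv M hF w y t
    rw [h2]
    have := hc₂ ((M.run (F w ++ y) t).tape 0 (uf z))
    omega
  · exact (adr_le D n (u - 1)).trans (max_le_max (Nat.sub_le _ _) le_rfl)

/-- **Turing machines with one work tape are cell machines**, from the bounds. -/
theorem gTMC (hB : GoalBnd) : GoalTMC := by
  intro hA M D F hF
  obtain ⟨K₀, hK⟩ := bd M hF
  refine ⟨mach M D, fun w y t h => ⟨t, sound M hF h⟩, fun C => ?_⟩
  obtain ⟨C', hC'⟩ := hB hA (mach M D) K₀ hK C
  exact ⟨C', fun w y t h ht => hC' w y t (complete M hF h) ht⟩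

end Pool.Agent.Helper88.UV
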