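import Pool.Agent.Helper53.UV.Cell

/-!
# PROJECT UR2 (MP_c578c8_lc), packet TMC: the interface between the machine and the bounds
-/

set_option autoImplicit false

namespace Pool.Agent.Helper88.UV

open Pool.Agent.Helper53.UV

/-- What the bounds need. The state is `(j, p, z, n)`, `p` the position of the input head, `z` the cell. -/
structure Bd (N : CM) (K₀ : ℕ) : Prop where
  st : ∀ (w y : List Bool) (t : ℕ), ∃ j p z, (N.conf w y t).1 =
    Nat.pair j (Nat.pair p (Nat.pair z w.length)) ∧ j ≤ K₀ ∧ p ≤ t ∧ z ≤ 2 * t ∧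
    N.cel (N.conf w y t).1 = z ∧ N.adr (N.conf w y t).1 = p
  cel : ∀ (w y : List Bool) (t : ℕ),
    N.cel (N.conf w y (t + 1)).1 ≤ N.cel (N.conf w y t).1 + 2 ∧
    N.cel (N.conf w y t).1 ≤ N.cel (N.conf w y (t + 1)).1 + 2
  adr : ∀ (w y : List Bool) (t : ℕ),
    N.adr (N.conf w y (t + 1)).1 ≤ N.adr (N.conf w y t).1 + 2 ∧
    N.adr (N.conf w y t).1 ≤ N.adr (N.conf w y (t + 1)).1 + 2
  con : ∀ (w y : List Bool) (t z : ℕ), (N.conf w y t).2 z ≤ K₀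
  ad : ∀ n u : ℕ, N.ad n u ≤ max u n

/-- The bounds part (helper92). Put `L = ⌊log₂ n⌋ + 1`, `D = n / L ^ 4 + 1`; AVG for `cel` and for `adr` gives
`o, o' < D` with `chg ≤ 4 t / D`; `s, m, k ≤ K L`, `h` constant. -/
def GoalBnd : Prop := GoalAVG → ∀ (N : CM) (K₀ : ℕ), Bd N K₀ → ∀ C : ℝ, ∃ C' : ℝ,
  ∀ (w y : List Bool) (t : ℕ), N.AcceptsAt w y (t + 1) →
    (t : ℝ) ≤ C * ((w.length : ℝ) + 1) ^ 3 / ((Nat.log 2 w.length : ℝ) + 1) ^ 9 →
    N.Within C' w y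

end Pool.Agent.Helper88.UV
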